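import Pool.Agent.Lib_MP_bc8080_lc.Long

/-!
MP_bc8080_lc (the splitting number of the reals versus the cardinal z).

A compact non-sequential space whose weight is smaller than the bounding number of a product of
regular cardinals modulo finite sets has an infinite closed subspace in which no sequence of length
`lam n` converges non-trivially, for all large `n`. Hence, if the splitting number of the reals is
smaller than this bounding number, then it is smaller than the cardinal z, or there is a compact
non-sequential space of weight at most the splitting number of the reals without convergent long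
sequences.
-/

namespace Pool.Agent.Results.MP_bc8080_lc.ClosedSubspace

open Cardinal Set Filter Topology Pool.BC8080

/-- A compact non-sequential space: compact, Hausdorff, infinite, without non-trivial convergent
sequences. -/
def NonSeq (X : Type) [TopologicalSpace X] : Prop :=
  CompactSpace X ∧ T2Space X ∧ Infinite X ∧ ¬ SeqConv X

theorem first (lam : ℕ → Cardinal.{0}) (hreg : ∀ n, (lam n).IsRegular) (hmono : StrictMono lam)
    (X : Type) [TopologicalSpace X] (h : NonSeq X) (hw : weight X < bProd lam) :
    ∃ Y : Set X, IsClosed Y ∧ Y.Infinite ∧ ∃ N, ∀ n, N ≤ n → ¬ HasLong (lam n) Y := by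
  obtain ⟨h1, h2, h3, h4⟩ := h
  obtain ⟨B, hB, hB2⟩ := exists_basis_weight X
  exact exists_noLong hreg hmono (dir_of_lt hw) h4 hB2 hB.le

theorem weight_subtype_le {X : Type} [TopologicalSpace X] (Y : Set X) : weight Y ≤ weight X := by
  obtain ⟨B, hB, hB2⟩ := exists_basis_weight X
  have h1 := hB2.isInducing (f := ((↑) : Y → X)) IsInducing.subtypeVal
  have h2 : weight Y ≤ #(preimage (Subtype.val : Y → X) '' B) :=
    csInf_le' (s := {κ | ∃ C : Set (Set Y), #C = κ ∧ TopologicalSpace.IsTopologicalBasis C})
      ⟨_, rfl, h1⟩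
  refine h2.trans ?_
  rw [← hB]
  exact Cardinal.mk_image_le

theorem result (lam : ℕ → Cardinal.{0}) (hreg : ∀ n, (lam n).IsRegular) (hmono : StrictMono lam) :
    (∀ (X : Type) [TopologicalSpace X], NonSeq X → weight X < bProd lam →
      ∃ Y : Set X, IsClosed Y ∧ Y.Infinite ∧ ∃ N, ∀ n, N ≤ n → ¬ HasLong (lam n) Y) ∧
    (sR < bProd lam →
      (∀ (X : Type) [TopologicalSpace X], NonSeq X → sR < weight X) ∨
      ∃ (X : Type) (_ : TopologicalSpace X), NonSeq X ∧ weight X ≤ sR ∧
        ∃ N, ∀ n, N ≤ n → ¬ HasLong (lam n) (univ : Set X)) := by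
  refine ⟨fun X _ h hw => first lam hreg hmono X h hw, fun hs => ?_⟩
  by_cases hcon : ∀ (X : Type) [TopologicalSpace X], NonSeq X → sR < weight X
  · exact Or.inl hcon
  · right
    push Not at hcon
    obtain ⟨X, tX, hX, hw⟩ := hcon
    obtain ⟨Y, hYc, hYi, N, hN⟩ := first lam hreg hmono X hX (lt_of_le_of_lt hw hs)
    obtain ⟨h1, h2, h3, h4⟩ := hX
    refine ⟨Y, inferInstance, ⟨isCompact_iff_compactSpace.1 hYc.isCompact, inferInstance,
      hYi.to_subtype, ?_⟩, (weight_subtype_le Y).trans hw, N, fun n hn h => hN n hn ?_⟩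
    · rintro ⟨u, p, hu, hup⟩
      exact h4 ⟨fun n => u n, p, fun n h => hu n (Subtype.ext h),
        (continuous_subtype_val.tendsto p).comp hup⟩
    · obtain ⟨y, p, -, hy, hyp⟩ := h
      refine ⟨fun ξ => y ξ, p, p.2, fun ξ hξ => ⟨(y ξ).2, fun h => (hy ξ hξ).2 (Subtype.ext h)⟩,
        fun U hU => ?_⟩
      exact hyp _ (continuous_subtype_val.continuousAt.preimage_mem_nhds hU)

end Pool.Agent.Results.MP_bc8080_lc.ClosedSubspace
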