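import Pool.Agent.Lib_MP_bc8080_lc.Weight
import Pool.Agent.Lib_MP_bc8080_lc.Card

/-!
MP_bc8080_lc (the splitting number of the reals versus the cardinal z).

For every strictly increasing sequence of regular cardinals `lam n` with supremum smaller than the
pseudo-intersection number, every non-sequential space which is an inverse limit of simple
extensions with small supports has weight at least the bounding number of the product of the
cardinals `lam n` modulo finite sets. Hence the splitting number of the reals is smaller than the
weight of each such space as soon as it is smaller than this bounding number.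
-/

namespace Pool.Agent.Results.MP_bc8080_lc.FilteredSpaces

open Cardinal Pool.BC8080

theorem result (lam : ℕ → Cardinal.{0}) (hreg : ∀ n, (lam n).IsRegular)
    (hmono : StrictMono lam) (hp : ⨆ n, lam n < pNum)
    {θ : Type} [LinearOrder θ] [WellFoundedLT θ] (S : Sys θ) (r : θ → ℕ)
    (hr : ∀ α, #(S.supp α) < lam (r α) ∧ ∀ β ∈ S.supp α, r β ≤ r α)
    {X : Type} [TopologicalSpace X] [Infinite X] (e : X ≃ₜ S.space) (hX : ¬ SeqConv X) :
    bProd lam ≤ weight X ∧ (sR < bProd lam → sR < weight X) := by
  have key : bProd lam ≤ weight X := by
    by_contra h
    rw [not_le] at h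
    have h0 : bProd lam ≠ 0 := fun h1 => by
      rw [h1] at h
      exact absurd h not_lt_zero
    obtain ⟨B, hB, hB2⟩ := exists_basis_weight X
    have hD : Dir lam (max (weight X) (⨆ n, lam n)) :=
      dir_of_lt (max_lt h (iSup_lt_bProd hreg hmono h0))
    exact hX (Sys.seqConv_of_base hreg hmono hD (pseudoInt_of_lt hp)
      (fun n => (le_ciSup Cardinal.bddAbove_of_small n).trans (le_max_right _ _)) S r hr e hB2
      (by rw [hB]; exact le_max_left _ _))
  exact ⟨key, fun h => lt_of_lt_of_le h key⟩

end Pool.Agent.Results.MP_bc8080_lc.FilteredSpaces
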